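import Mathlib

set_option autoImplicit false

namespace Pool.Agent.Results.MP_22519f_co.Counter

/-- The game `(D, g, h)` on the digraph `E` (`E u v`: `u` sees `v`) is winnable: there are rules,
each depending only on the colours seen and naming `g v` of the colours `0, …, h v - 1`, such that
on every colouring some vertex names its own colour. -/
def Winnable {V : Type} (E : V → V → Prop) (g h : V → ℕ) : Prop :=
  ∃ σ : V → (V → ℕ) → Finset ℕ,
    (∀ v c c', (∀ u, E v u → c u = c' u) → σ v c = σ v c') ∧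
    (∀ v c, (σ v c).card = g v ∧ ∀ x ∈ σ v c, x < h v) ∧
    ∀ c : V → ℕ, (∀ v, c v < h v) → ∃ v, c v ∈ σ v c

/-- `S` is redundant: every out-neighbour of `S` is seen by every in-neighbour of `S`. -/
def Redundant {V : Type} (E : V → V → Prop) (S : Set V) : Prop :=
  ∀ w, (∃ s ∈ S, E s w) → ∀ u, (∃ s ∈ S, E u s) → E u w

/-- arcs `0→1, 1→0, 0→2, 2→3, 3→0` -/
def E (u v : Fin 4) : Prop :=
  (u = 0 ∧ v = 1) ∨ (u = 1 ∧ v = 0) ∨ (u = 0 ∧ v = 2) ∨ (u = 2 ∧ v = 3) ∨ (u = 3 ∧ v = 0)

instance (u v : Fin 4) : Decidable (E u v) := by unfold E; infer_instance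

def hh : Fin 4 → ℕ := ![4, 2, 2, 2]

def strat (v : Fin 4) (c : Fin 4 → ℕ) : Finset ℕ :=
  ![{(1 - c 1 % 2) + 2 * (c 2 % 2)}, {c 0 % 2}, {c 3 % 2}, {c 0 / 2 % 2}] v

lemma latvian : Winnable E (fun _ => 1) hh := by
  refine ⟨strat, ?_, ?_, ?_⟩
  · intro v c c' h
    fin_cases v
    · have h1 := h 1 (by decide)
      have h2 := h 2 (by decide)
      simp [strat, h1, h2]
    · have h1 := h 0 (by decide)
      simp [strat, h1]
    · have h1 := h 3 (by decide)
      simp [strat, h1]
    · have h1 := h 0 (by decide)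
      simp [strat, h1]
  · intro v c
    fin_cases v <;> simp [strat, hh] <;> omega
  · intro c hc
    have h0 : c 0 < 4 := hc 0
    have h1 : c 1 < 2 := hc 1
    have h2 : c 2 < 2 := hc 2
    have h3 : c 3 < 2 := hc 3
    by_contra hn
    push Not at hn
    have a0 := hn 0
    have a1 := hn 1
    have a2 := hn 2
    have a3 := hn 3
    simp [strat] at a0 a1 a2 a3
    omega

/-- double counting: some column is rarely guessed -/
lemma rare {s m : ℕ} (hm : 0 < m) (T : ℕ → Finset ℕ) (hT : ∀ y, (T y).card = s) :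
    ∃ p < m, ((Finset.range m).filter fun y => p ∈ T y).card ≤ s := by
  by_contra hn
  push Not at hn
  have h1 : ∑ p ∈ Finset.range m, ((Finset.range m).filter fun y => p ∈ T y).card
      = ∑ y ∈ Finset.range m, ((Finset.range m).filter fun p => p ∈ T y).card := by
    simp only [Finset.card_filter]
    exact Finset.sum_comm
  have h2 : ∑ y ∈ Finset.range m, ((Finset.range m).filter fun p => p ∈ T y).card ≤
      ∑ _y ∈ Finset.range m, s := by
    refine Finset.sum_le_sum fun y _ => ?_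
    rw [← hT y]
    exact Finset.card_le_card fun p hp => (Finset.mem_filter.1 hp).2
  have h3 : ∑ _y ∈ Finset.range m, s <
      ∑ p ∈ Finset.range m, ((Finset.range m).filter fun y => p ∈ T y).card :=
    Finset.sum_lt_sum_of_nonempty (by simpa using hm.ne') fun p hp => hn p (Finset.mem_range.1 hp)
  omega

lemma avoid {s m : ℕ} (hm : 2 * s < m) (A B : Finset ℕ) (hA : A.card ≤ s) (hB : B.card ≤ s) :
    ∃ x < m, x ∉ A ∧ x ∉ B := by
  have h1 : (A ∪ B).card < (Finset.range m).card := by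
    have := Finset.card_union_le A B
    rw [Finset.card_range]; omega
  obtain ⟨x, hx, hx2⟩ := Finset.exists_mem_notMem_of_card_lt_card h1
  rw [Finset.mem_union, not_or] at hx2
  exact ⟨x, Finset.mem_range.1 hx, hx2⟩

lemma polish (s m : ℕ) (h : Winnable E (fun _ => s) (fun _ => m)) : m ≤ 2 * s := by
  by_contra hm
  push Not at hm
  obtain ⟨σ, hdep, hcard, hwin⟩ := h
  have hm0 : 0 < m := by omega
  obtain ⟨p, hp, hp2⟩ := rare hm0 (fun y => σ 2 fun _ => y) fun y => (hcard 2 _).1
  obtain ⟨q, hq, hq2⟩ := rare hm0 (fun y => σ 1 fun _ => y) fun y => (hcard 1 _).1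
  obtain ⟨x, hx, hx1, hx2⟩ := avoid hm _ (σ 0 ![0, q, p, 0]) hq2 (hcard 0 _).1.le
  obtain ⟨y, hy, hy1, hy2⟩ := avoid hm _ (σ 3 fun _ => x) hp2 (hcard 3 _).1.le
  obtain ⟨v, hv⟩ := hwin ![x, q, p, y] (by intro v; fin_cases v <;> assumption)
  fin_cases v
  · have e := hdep 0 ![x, q, p, y] ![0, q, p, 0] (by
      intro u hu; fin_cases u <;> first | rfl | exact absurd hu (by decide))
    exact hx2 (e ▸ hv)
  · have e := hdep 1 ![x, q, p, y] (fun _ => x) (by
      intro u hu; fin_cases u <;> first | rfl | exact absurd hu (by decide))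
    exact hx1 (Finset.mem_filter.2 ⟨Finset.mem_range.2 hx, e ▸ hv⟩)
  · have e := hdep 2 ![x, q, p, y] (fun _ => y) (by
      intro u hu; fin_cases u <;> first | rfl | exact absurd hu (by decide))
    exact hy1 (Finset.mem_filter.2 ⟨Finset.mem_range.2 hy, e ▸ hv⟩)
  · have e := hdep 3 ![x, q, p, y] (fun _ => x) (by
      intro u hu; fin_cases u <;> first | rfl | exact absurd hu (by decide))
    exact hy2 (e ▸ hv)

theorem result :
    ∃ (k : ℕ) (V : Type) (_ : Fintype V) (D : V → V → Prop) (h : V → ℕ),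
      (∀ v, ¬ D v v) ∧
      (∀ u v, Relation.ReflTransGen D u v) ∧
      (∀ S : Set V, S.Nonempty → ¬ Redundant D S) ∧ (∃ u v, u ≠ v ∧ ¬ D u v) ∧
      (∀ v, 2 ≤ h v) ∧ (∀ v, k ≤ h v) ∧ (∃ v, h v ≠ k) ∧
      Winnable D (fun _ => 1) h ∧
      ∀ s m : ℕ, Winnable D (fun _ => s) (fun _ => m) → m ≤ k * s := by
  refine ⟨2, Fin 4, inferInstance, E, hh, by decide, ?_, ?_, ⟨1, 2, by decide, by decide⟩,
    by decide, by decide, ⟨0, by decide⟩, latvian, polish⟩
  · have s : ∀ u v, E u v → Relation.ReflTransGen E u v := fun u v h => .single h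
    have to0 : ∀ u, Relation.ReflTransGen E u 0 := by
      intro u
      fin_cases u
      · exact .refl
      · exact s 1 0 (by decide)
      · exact (s 2 3 (by decide)).trans (s 3 0 (by decide))
      · exact s 3 0 (by decide)
    have fr0 : ∀ u, Relation.ReflTransGen E 0 u := by
      intro u
      fin_cases u
      · exact .refl
      · exact s 0 1 (by decide)
      · exact s 0 2 (by decide)
      · exact (s 0 2 (by decide)).trans (s 2 3 (by decide))
    exact fun u v => (to0 u).trans (fr0 v)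
  · rintro S ⟨v, hv⟩ hr
    fin_cases v
    · exact absurd (hr 1 ⟨0, hv, by decide⟩ 1 ⟨0, hv, by decide⟩) (by decide)
    · exact absurd (hr 0 ⟨1, hv, by decide⟩ 0 ⟨1, hv, by decide⟩) (by decide)
    · exact absurd (hr 3 ⟨2, hv, by decide⟩ 0 ⟨2, hv, by decide⟩) (by decide)
    · exact absurd (hr 0 ⟨3, hv, by decide⟩ 2 ⟨3, hv, by decide⟩) (by decide)

end Pool.Agent.Results.MP_22519f_co.Counter
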